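import Mathlib

set_option autoImplicit false

namespace Pool.Agent.H2.B98776

abbrev E : Type := EuclideanSpace ℝ (Fin 3)

/-- points on the first coordinate axis -/
noncomputable def x (i : ℕ) : E := !₂[(i : ℝ), 0, 0]

/-- the three points off the axis -/
noncomputable def q (j : Fin 3) : E := ![!₂[0, 1, 0], !₂[0, 0, 1], !₂[0, 1, 1]] j

lemma x0 (i : ℕ) : x i 0 = i := rfl
lemma x1 (i : ℕ) : x i 1 = 0 := rfl
lemma x2 (i : ℕ) : x i 2 = 0 := rfl
lemma q00 : q 0 0 = 0 := rfl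
lemma q01 : q 0 1 = 1 := rfl
lemma q02 : q 0 2 = 0 := rfl
lemma q10 : q 1 0 = 0 := rfl
lemma q11 : q 1 1 = 0 := rfl
lemma q12 : q 1 2 = 1 := rfl
lemma q20 : q 2 0 = 0 := rfl
lemma q21 : q 2 1 = 1 := rfl
lemma q22 : q 2 2 = 1 := rfl

lemma col_minor {a b c : E} (h : Collinear ℝ ({a, b, c} : Set E)) (i j : Fin 3) :
    (b i - a i) * (c j - a j) = (b j - a j) * (c i - a i) := by
  rw [collinear_iff_of_mem (p₀ := a) (by simp)] at h
  obtain ⟨v, hv⟩ := h
  obtain ⟨r, hr⟩ := hv b (by simp)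
  obtain ⟨s, hs⟩ := hv c (by simp)
  rw [hr, hs]
  simp only [vadd_eq_add, PiLp.add_apply, PiLp.smul_apply, smul_eq_mul]
  ring

lemma c1 {i j : ℕ} (hij : i ≠ j) (k : Fin 3) : ¬ Collinear ℝ ({x i, x j, q k} : Set E) := by
  intro h
  have h1 := col_minor h 0 1
  have h2 := col_minor h 0 2
  have hne : (j : ℝ) - i ≠ 0 := sub_ne_zero.2 (by exact_mod_cast hij.symm)
  fin_cases k
  · simp [x0, x1, x2, q00, q01, q02] at h1
    exact hne h1
  · simp [x0, x1, x2, q10, q11, q12] at h2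
    exact hne h2
  · simp [x0, x1, x2, q20, q21, q22] at h1
    exact hne h1

lemma c2 (i : ℕ) {j k : Fin 3} (hjk : j ≠ k) : ¬ Collinear ℝ ({x i, q j, q k} : Set E) := by
  intro h
  have h1 := col_minor h 1 2
  fin_cases j <;> fin_cases k <;> simp [x0, x1, x2, q00, q01, q02, q10, q11, q12, q20, q21, q22] at h1 hjk

lemma c3 : ¬ Collinear ℝ ({q 0, q 1, q 2} : Set E) := by
  intro h
  have h1 := col_minor h 1 2
  simp [q00, q01, q02, q10, q11, q12, q20, q21, q22] at h1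

/-- a plane spanned by three noncollinear points is spanned by any three noncollinear points
on it -/
lemma plane_eq {a b c u v w : E} (h : ¬ Collinear ℝ ({a, b, c} : Set E))
    (h' : ¬ Collinear ℝ ({u, v, w} : Set E))
    (hu : u ∈ affineSpan ℝ ({a, b, c} : Set E)) (hv : v ∈ affineSpan ℝ ({a, b, c} : Set E))
    (hw : w ∈ affineSpan ℝ ({a, b, c} : Set E)) :
    affineSpan ℝ ({a, b, c} : Set E) = affineSpan ℝ ({u, v, w} : Set E) := by
  have e : ∀ a b c : E, Set.range ![a, b, c] = ({a, b, c} : Set E) := by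
    intro a b c
    ext p
    simp
    tauto
  rw [← affineIndependent_iff_not_collinear_set] at h h'
  symm
  rw [← e u v w]
  apply h'.affineSpan_eq_of_le_of_card_eq_finrank_add_one
  · rw [affineSpan_le, e]
    rintro p hp
    rw [Set.mem_insert_iff, Set.mem_insert_iff, Set.mem_singleton_iff] at hp
    rcases hp with rfl | rfl | rfl <;> assumption
  · rw [direction_affineSpan, ← e a b c, h.finrank_vectorSpan (n := 2) (by simp)]
    simp

/-- points of the axis lie on the span of two others -/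
lemma axis {P : AffineSubspace ℝ E} {i j : ℕ} (hij : i ≠ j) (hi : x i ∈ P) (hj : x j ∈ P)
    (k : ℕ) : x k ∈ P := by
  have hne : (j : ℝ) - i ≠ 0 := sub_ne_zero.2 (by exact_mod_cast hij.symm)
  have h := AffineMap.lineMap_mem (((k : ℝ) - i) / (j - i)) hi hj
  convert h using 1
  ext l
  rw [AffineMap.lineMap_apply]
  simp only [vadd_eq_add, vsub_eq_sub, PiLp.add_apply, PiLp.smul_apply, PiLp.sub_apply,
    smul_eq_mul]
  fin_cases l
  · simp only [Fin.zero_eta, x0]
    field_simp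
    ring
  · simp [x1]
  · simp [x2]

/-- the fourth point of the parallelogram -/
lemma par {P : AffineSubspace ℝ E} (h0 : x 0 ∈ P) {j k : Fin 3} (hjk : j ≠ k) (hj : q j ∈ P)
    (hk : q k ∈ P) (l : Fin 3) : q l ∈ P := by
  have e1 : q 2 = (1 : ℝ) • (q 0 -ᵥ x 0) +ᵥ q 1 := by
    ext l
    fin_cases l <;> simp [x0, x1, x2, q00, q01, q02, q10, q11, q12, q20, q21, q22]
  have e2 : q 0 = (1 : ℝ) • (q 2 -ᵥ q 1) +ᵥ x 0 := by
    ext l
    fin_cases l <;> simp [x0, x1, x2, q00, q01, q02, q10, q11, q12, q20, q21, q22]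
  have e3 : q 1 = (1 : ℝ) • (q 2 -ᵥ q 0) +ᵥ x 0 := by
    ext l
    fin_cases l <;> simp [x0, x1, x2, q00, q01, q02, q10, q11, q12, q20, q21, q22]
  have f1 : q 0 ∈ P → q 1 ∈ P → q 2 ∈ P := by
    intro a b
    rw [e1]
    exact P.smul_vsub_vadd_mem 1 a h0 b
  have f2 : q 1 ∈ P → q 2 ∈ P → q 0 ∈ P := by
    intro a b
    rw [e2]
    exact P.smul_vsub_vadd_mem 1 b a h0
  have f3 : q 0 ∈ P → q 2 ∈ P → q 1 ∈ P := by
    intro a b
    rw [e3]
    exact P.smul_vsub_vadd_mem 1 b a h0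
  fin_cases j <;> fin_cases k <;> fin_cases l <;> simp at * <;> tauto

/-- four noncoplanar points -/
lemma not_coplanar {s : Set E} {i j : ℕ} (hij : i ≠ j) {k l : Fin 3} (hkl : k ≠ l) (hi : x i ∈ s)
    (hj : x j ∈ s) (hk : q k ∈ s) (hl : q l ∈ s) : ¬ Coplanar ℝ s := by
  intro h
  have hne : (j : ℝ) - i ≠ 0 := sub_ne_zero.2 (by exact_mod_cast hij.symm)
  have hind : AffineIndependent ℝ ![x i, x j, q k, q l] := by
    rw [affineIndependent_iff_of_fintype]
    intro w hw hs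
    rw [Finset.weightedVSub_eq_linear_combination _ hw] at hs
    have g0 := congrArg (fun v : E => v 0) hs
    have g1 := congrArg (fun v : E => v 1) hs
    have g2 := congrArg (fun v : E => v 2) hs
    simp only [Fin.sum_univ_four, PiLp.add_apply, PiLp.smul_apply, smul_eq_mul,
      Matrix.cons_val_zero, Matrix.cons_val_one, Matrix.cons_val, PiLp.zero_apply, x0, x1, x2]
      at g0 g1 g2 hw
    have hq0 : ∀ k, q k 0 = 0 := by
      intro k
      fin_cases k <;> rfl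
    rw [hq0, hq0] at g0
    have h23 : w 2 = 0 ∧ w 3 = 0 := by
      fin_cases k <;> fin_cases l <;>
        simp [q01, q02, q11, q12, q21, q22] at g1 g2 hkl ⊢ <;> constructor <;> linarith
    have hw0 : w 1 * (j - i) = 0 := by
      have : w 0 = - w 1 := by linarith [h23.1, h23.2]
      rw [this] at g0
      linarith
    have hw1 : w 1 = 0 := (mul_eq_zero.1 hw0).resolve_right hne
    have hw2 : w 0 = 0 := by linarith [h23.1, h23.2]
    intro m
    fin_cases m
    · exact hw2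
    · exact hw1
    · exact h23.1
    · exact h23.2
  have hsub : Set.range ![x i, x j, q k, q l] ⊆ s := by
    rintro p ⟨m, rfl⟩
    fin_cases m <;> simpa
  have h2 := h.subset hsub
  have h3 := hind.finrank_vectorSpan (n := 3) (by simp)
  have h4 := h2.finrank_le_two
  omega


lemma x_inj {i j : ℕ} (h : x i = x j) : i = j := by
  have := congrArg (fun v : E => v 0) h
  simp only [x0] at this
  exact_mod_cast this

lemma q_inj {i j : Fin 3} (h : q i = q j) : i = j := by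
  have h1 := congrArg (fun v : E => v 1) h
  have h2 := congrArg (fun v : E => v 2) h
  fin_cases i <;> fin_cases j <;> simp [q01, q02, q11, q12, q21, q22] at h1 h2 ⊢

lemma x_ne_q (i : ℕ) (j : Fin 3) : x i ≠ q j := by
  intro h
  have h1 := congrArg (fun v : E => v 1) h
  have h2 := congrArg (fun v : E => v 2) h
  fin_cases j <;> simp [q01, q02, q11, q12, q21, q22, x1, x2] at h1 h2

/-- the point set -/
noncomputable def S (K : ℕ) : Finset E := by
  classical
  exact (Finset.range K).image x ∪ Finset.univ.image q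

lemma mem_S {K : ℕ} {p : E} : p ∈ S K ↔ (∃ i < K, p = x i) ∨ ∃ j, p = q j := by
  classical
  simp only [S, Finset.mem_union, Finset.mem_image, Finset.mem_range, Finset.mem_univ, true_and]
  constructor
  · rintro (⟨i, hi, rfl⟩ | ⟨j, rfl⟩)
    · exact Or.inl ⟨i, hi, rfl⟩
    · exact Or.inr ⟨j, rfl⟩
  · rintro (⟨i, hi, rfl⟩ | ⟨j, rfl⟩)
    · exact Or.inl ⟨i, hi, rfl⟩
    · exact Or.inr ⟨j, rfl⟩

lemma card_S (K : ℕ) : K ≤ (S K).card := by
  classical
  calc K = ((Finset.range K).image x).card := by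
        rw [Finset.card_image_of_injective _ (fun i j h => x_inj h), Finset.card_range]
    _ ≤ _ := Finset.card_le_card Finset.subset_union_left

lemma cx (i j k : ℕ) : Collinear ℝ ({x i, x j, x k} : Set E) := by
  rw [collinear_iff_exists_forall_eq_smul_vadd]
  refine ⟨x 0, x 1, ?_⟩
  have key : ∀ i, ∃ r : ℝ, x i = r • x 1 +ᵥ x 0 := by
    intro i
    refine ⟨i, ?_⟩
    ext l
    fin_cases l <;> simp [x0, x1, x2]
  intro p hp
  rw [Set.mem_insert_iff, Set.mem_insert_iff, Set.mem_singleton_iff] at hp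
  rcases hp with rfl | rfl | rfl <;> exact key _

lemma classify {K : ℕ} {a b c : E} (ha : a ∈ S K) (hb : b ∈ S K) (hc : c ∈ S K)
    (h : ¬ Collinear ℝ ({a, b, c} : Set E)) {P : AffineSubspace ℝ E} (haP : a ∈ P) (hbP : b ∈ P)
    (hcP : c ∈ P) : (∃ i j k, i ≠ j ∧ x i ∈ P ∧ x j ∈ P ∧ q k ∈ P) ∨
    (∃ i, i < K ∧ ∃ j k, j ≠ k ∧ x i ∈ P ∧ q j ∈ P ∧ q k ∈ P) ∨ (∀ m, q m ∈ P) := by
  have hab : a ≠ b := by
    rintro rfl
    exact h (by simpa using collinear_pair ℝ a c)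
  have hbc : b ≠ c := by
    rintro rfl
    exact h (by simpa using collinear_pair ℝ a b)
  have hac : a ≠ c := by
    rintro rfl
    exact h (by
      rw [Set.insert_comm]
      simpa using collinear_pair ℝ b a)
  rw [mem_S] at ha hb hc
  rcases ha with ⟨i, hi, rfl⟩ | ⟨i, rfl⟩ <;> rcases hb with ⟨j, hj, rfl⟩ | ⟨j, rfl⟩ <;>
    rcases hc with ⟨k, hk, rfl⟩ | ⟨k, rfl⟩
  · exact absurd (cx i j k) h
  · exact Or.inl ⟨i, j, k, fun e => hab (by rw [e]), haP, hbP, hcP⟩
  · exact Or.inl ⟨i, k, j, fun e => hac (by rw [e]), haP, hcP, hbP⟩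
  · exact Or.inr (Or.inl ⟨i, hi, j, k, fun e => hbc (by rw [e]), haP, hbP, hcP⟩)
  · exact Or.inl ⟨j, k, i, fun e => hbc (by rw [e]), hbP, hcP, haP⟩
  · exact Or.inr (Or.inl ⟨j, hj, i, k, fun e => hac (by rw [e]), hbP, haP, hcP⟩)
  · exact Or.inr (Or.inl ⟨k, hk, i, j, fun e => hab (by rw [e]), hcP, haP, hbP⟩)
  · refine Or.inr (Or.inr fun m => ?_)
    have key : ∀ i j k m : Fin 3, i ≠ j → i ≠ k → j ≠ k → m = i ∨ m = j ∨ m = k := by decide
    rcases key i j k m (fun e => hab (by rw [e])) (fun e => hac (by rw [e]))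
      (fun e => hbc (by rw [e])) with rfl | rfl | rfl <;> assumption

/-- the lines -/
noncomputable def f (K : ℕ) : (Fin K × Fin 3) ⊕ Fin 2 → AffineSubspace ℝ E
  | Sum.inl p => affineSpan ℝ {x p.1, q p.2}
  | Sum.inr 0 => affineSpan ℝ {x 0, x 1}
  | Sum.inr 1 => affineSpan ℝ {q 0, q 1}

lemma f_inj (K : ℕ) : Function.Injective (f K) := by
  have l1 : ∀ a b : E, a ∈ affineSpan ℝ ({a, b} : Set E) := fun a b => left_mem_affineSpan_pair ℝ a b
  have l2 : ∀ a b : E, b ∈ affineSpan ℝ ({a, b} : Set E) := fun a b => right_mem_affineSpan_pair ℝ a b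
  have h01 : (0 : ℕ) ≠ 1 := by decide
  have hq01 : (0 : Fin 3) ≠ 1 := by decide
  -- the line `x 0 x 1` does not contain any `q j`
  have m1 : ∀ j, q j ∉ affineSpan ℝ ({x 0, x 1} : Set E) := fun j hj =>
    c1 h01 j (collinear_triple_of_mem_affineSpan_pair (l1 _ _) (l2 _ _) hj)
  -- the line `q 0 q 1` does not contain any `x i`
  have m2 : ∀ i, x i ∉ affineSpan ℝ ({q 0, q 1} : Set E) := fun i hi =>
    c2 i hq01 (collinear_triple_of_mem_affineSpan_pair hi (l1 _ _) (l2 _ _))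
  rintro (⟨i, j⟩ | a) (⟨i', j'⟩ | b) h
  · have h' : affineSpan ℝ ({x i, q j} : Set E) = affineSpan ℝ ({x i', q j'} : Set E) := h
    have hi : (i : ℕ) = i' := by
      by_contra hne
      exact c1 hne j (collinear_triple_of_mem_affineSpan_pair (l1 _ _) (h' ▸ l1 _ _) (l2 _ _))
    have hj : j = j' := by
      by_contra hne
      exact c2 i hne (collinear_triple_of_mem_affineSpan_pair (l1 _ _) (l2 _ _) (h' ▸ l2 _ _))
    rw [Fin.ext hi, hj]
  · exfalso
    fin_cases b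
    · have h' : affineSpan ℝ ({x i, q j} : Set E) = affineSpan ℝ ({x 0, x 1} : Set E) := h
      exact m1 j (h' ▸ l2 _ _)
    · have h' : affineSpan ℝ ({x i, q j} : Set E) = affineSpan ℝ ({q 0, q 1} : Set E) := h
      exact m2 i (h' ▸ l1 _ _)
  · exfalso
    fin_cases a
    · have h' : affineSpan ℝ ({x 0, x 1} : Set E) = affineSpan ℝ ({x i', q j'} : Set E) := h
      exact m1 j' (h' ▸ l2 _ _)
    · have h' : affineSpan ℝ ({q 0, q 1} : Set E) = affineSpan ℝ ({x i', q j'} : Set E) := h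
      exact m2 i' (h' ▸ l1 _ _)
  · fin_cases a <;> fin_cases b
    · rfl
    · exfalso
      have h' : affineSpan ℝ ({x 0, x 1} : Set E) = affineSpan ℝ ({q 0, q 1} : Set E) := h
      exact m1 0 (h' ▸ l1 _ _)
    · exfalso
      have h' : affineSpan ℝ ({q 0, q 1} : Set E) = affineSpan ℝ ({x 0, x 1} : Set E) := h
      exact m1 0 (h' ▸ l1 _ _)
    · rfl

/-- the planes -/
noncomputable def g (K : ℕ) : Fin 3 ⊕ (Fin (K - 1) × Fin 3) ⊕ Unit → AffineSubspace ℝ E
  | Sum.inl j => affineSpan ℝ {x 0, x 1, q j}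
  | Sum.inr (Sum.inl p) => affineSpan ℝ {x (p.1 + 1), q (p.2 + 1), q (p.2 + 2)}
  | Sum.inr (Sum.inr _) => affineSpan ℝ {q 0, q 1, q 2}

lemma planes_sub (K : ℕ) : {P : AffineSubspace ℝ E | ∃ a ∈ S K, ∃ b ∈ S K, ∃ c ∈ S K,
    ¬ Collinear ℝ ({a, b, c} : Set E) ∧ P = affineSpan ℝ ({a, b, c} : Set E)} ⊆
    Set.range (g K) := by
  rintro P ⟨a, ha, b, hb, c, hc, hcol, hP⟩
  have haP : a ∈ P := hP ▸ mem_affineSpan ℝ (by simp)
  have hbP : b ∈ P := hP ▸ mem_affineSpan ℝ (by simp)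
  have hcP : c ∈ P := hP ▸ mem_affineSpan ℝ (by simp)
  rcases classify ha hb hc hcol haP hbP hcP with ⟨i, j, k, hij, hi, hj, hk⟩ |
    ⟨i, hiK, j, k, hjk, hi, hj, hk⟩ | hq
  · refine ⟨Sum.inl k, ?_⟩
    rw [hP] at hi hj hk ⊢
    exact (plane_eq hcol (c1 (by decide) k) (axis hij hi hj 0) (axis hij hi hj 1) hk).symm
  · by_cases hi0 : i = 0
    · subst hi0
      refine ⟨Sum.inr (Sum.inr ()), ?_⟩
      have := fun l => par hi hjk hj hk l
      rw [hP] at this ⊢
      exact (plane_eq hcol c3 (this 0) (this 1) (this 2)).symm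
    · obtain ⟨l, hl1, hl2⟩ : ∃ l : Fin 3, q (l + 1) ∈ P ∧ q (l + 2) ∈ P := by
        have key : ∀ j k : Fin 3, j ≠ k → ∃ l : Fin 3, (l + 1 = j ∧ l + 2 = k) ∨
          (l + 1 = k ∧ l + 2 = j) := by decide
        obtain ⟨l, ⟨h1, h2⟩ | ⟨h1, h2⟩⟩ := key j k hjk
        · exact ⟨l, by rw [h1]; exact hj, by rw [h2]; exact hk⟩
        · exact ⟨l, by rw [h1]; exact hk, by rw [h2]; exact hj⟩
      refine ⟨Sum.inr (Sum.inl (⟨i - 1, by omega⟩, l)), ?_⟩
      have hi' : i - 1 + 1 = i := by omega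
      show affineSpan ℝ {x (i - 1 + 1), q (l + 1), q (l + 2)} = P
      rw [hi']
      rw [hP] at hi hl1 hl2 ⊢
      have hne : ∀ l : Fin 3, l + 1 ≠ l + 2 := by decide
      exact (plane_eq hcol (c2 i (hne l)) hi hl1 hl2).symm
  · refine ⟨Sum.inr (Sum.inr ()), ?_⟩
    rw [hP] at hq ⊢
    exact (plane_eq hcol c3 (hq 0) (hq 1) (hq 2)).symm

end Pool.Agent.H2.B98776
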